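import Pool.Agent.Helper82.RD.Defs

/-!
# Project RD (MP_86d903_lc), module GGI: three identities for `gg`
-/

set_option autoImplicit false

open Finset MP86d903

namespace Pool.Agent.Helper82.RD

variable {ι V : Type} [DecidableEq ι] [Fintype ι] [Fintype V] [DecidableEq V]
  {vs ng : ι → Finset V} {q : ℕ}

private theorem mGGI_card {V : Type} [DecidableEq V] {Z J : Finset V} (h : Disjoint J Z)
    (X : Finset V) : ((X \ (Z ∪ J)).card : ℤ) = ((X \ Z).card : ℤ) - ((X ∩ J).card : ℤ) := by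
  have h1 : X \ Z = (X \ (Z ∪ J)) ∪ (X ∩ J) := by
    ext x
    simp only [mem_sdiff, mem_union, mem_inter, not_or]
    constructor
    · rintro ⟨hx, hz⟩
      by_cases hj : x ∈ J
      · exact Or.inr ⟨hx, hj⟩
      · exact Or.inl ⟨hx, hz, hj⟩
    · rintro (⟨hx, hz, _⟩ | ⟨hx, hj⟩)
      · exact ⟨hx, hz⟩
      · exact ⟨hx, Finset.disjoint_left.1 h hj⟩
  have h2 : Disjoint (X \ (Z ∪ J)) (X ∩ J) := by
    rw [Finset.disjoint_left]
    intro x hx hx2
    simp only [mem_sdiff, mem_union, mem_inter, not_or] at hx hx2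
    exact hx.2.2 hx2.2
  rw [h1, Finset.card_union_of_disjoint h2]
  push_cast
  ring

/-- GGI: three identities for `gg`. -/
theorem mGGI : GI vs where
  add := by
    intro Z J h S
    have h1 := mGGI_card h (S.biUnion vs)
    have h2 : ∑ c ∈ S, ((vs c \ (Z ∪ J)).card : ℤ) =
        ∑ c ∈ S, ((vs c \ Z).card : ℤ) - ∑ c ∈ S, ((vs c ∩ J).card : ℤ) := by
      rw [← Finset.sum_sub_distrib]
      exact Finset.sum_congr rfl fun c _ => mGGI_card h (vs c)
    unfold gg
    rw [h1, h2]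
    ring
  low := by
    intro J S
    have h1 : S.biUnion vs ∩ J = S.biUnion (fun c => vs c ∩ J) := by
      ext x
      simp only [mem_inter, mem_biUnion]
      constructor
      · rintro ⟨⟨c, hc, hx⟩, hj⟩
        exact ⟨c, hc, hx, hj⟩
      · rintro ⟨c, hc, hx, hj⟩
        exact ⟨⟨c, hc, hx⟩, hj⟩
    rw [h1]
    exact_mod_cast Finset.card_biUnion_le
  uni := by
    intro Z S S' h
    have h1 : (S ∪ S').biUnion vs \ Z =
        (S.biUnion vs \ Z) ∪ (S'.biUnion vs \ (Z ∪ S.biUnion vs)) := by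
      ext x
      simp only [mem_sdiff, mem_union, mem_biUnion, not_or]
      constructor
      · rintro ⟨⟨c, hc, hx⟩, hz⟩
        by_cases h2 : ∃ a ∈ S, x ∈ vs a
        · exact Or.inl ⟨h2, hz⟩
        · rcases hc with hc | hc
          · exact absurd ⟨c, hc, hx⟩ h2
          · exact Or.inr ⟨⟨c, hc, hx⟩, hz, h2⟩
      · rintro (⟨⟨c, hc, hx⟩, hz⟩ | ⟨⟨c, hc, hx⟩, hz, _⟩)
        · exact ⟨⟨c, Or.inl hc, hx⟩, hz⟩
        · exact ⟨⟨c, Or.inr hc, hx⟩, hz⟩
    have h2 : Disjoint (S.biUnion vs \ Z) (S'.biUnion vs \ (Z ∪ S.biUnion vs)) := by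
      rw [Finset.disjoint_left]
      intro x hx hx2
      rw [mem_sdiff] at hx hx2
      exact hx2.2 (mem_union_right _ hx.1)
    unfold gg
    rw [h1, Finset.card_union_of_disjoint h2, Finset.sum_union h]
    push_cast
    ring

end Pool.Agent.Helper82.RD
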